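import Pool.Agent.X47.QF5

set_option autoImplicit false

/-!
# MP_e3fe77_co: both q-factorial ratios have nonnegative coefficients, for every `n`

The ratios are Hilbert series of weighted complete intersections of dimension zero: there is a
regular sequence of weighted homogeneous polynomials of the degrees `d` which occur in the
numerator, in variables whose weights are the `a` which occur in the denominator, as soon as every
set `I` of variables has at least `|I|` degrees in the semigroup generated by its weights
(`Pool.Agent.TH416.CI.ci_main` of the starting library). The condition is checked with Freiman's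
`3/2`-theorem in `ℤ/M`, `M` the largest weight in `I`: either the semigroup has many elements in
every interval of length `M`, or it contains all large multiples of a common divisor `g` of the
weights in `I`, and then the multiples of `g` are counted.
-/

namespace Pool.Agent.Results.MP_e3fe77_co.BothPositive

open Polynomial

/-- `[m]! = (1 - X) (1 - X ^ 2) ⋯ (1 - X ^ m)`. -/
noncomputable def qfac (m : ℕ) : ℤ[X] := ∏ i ∈ Finset.Icc 1 m, (1 - X ^ i)

/-- The rational function `N / Q` is a polynomial with nonnegative integer coefficients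
(used for `Q ≠ 0` only). -/
def NonnegPoly (N Q : ℤ[X]) : Prop := ∃ P : ℤ[X], (∀ k, 0 ≤ P.coeff k) ∧ N = P * Q

/-- Q1: for every positive integer `n`,
`A_n = (1 - q) [15n]! [2n]! / ((1 - q^(10n+1)) [10n]! [4n]! [3n]!)` and
`B_n = (1 - q^3) (1 - q^7) [15n]! [2n]! / ((1 - q) (1 - q^(10n+3)) [10n]! [4n]! [3n]!)`
are polynomials with nonnegative integer coefficients. -/
theorem result (n : ℕ) (hn : 0 < n) :
    NonnegPoly ((1 - X) * (qfac (15 * n) * qfac (2 * n)))
      ((1 - X ^ (10 * n + 1)) * (qfac (10 * n) * qfac (4 * n) * qfac (3 * n))) ∧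
    NonnegPoly ((1 - X ^ 3) * (1 - X ^ 7) * (qfac (15 * n) * qfac (2 * n)))
      ((1 - X) * (1 - X ^ (10 * n + 3)) * (qfac (10 * n) * qfac (4 * n) * qfac (3 * n))) := by
  refine ⟨Pool.Agent.X47.QF.A1 n hn, ?_⟩
  rcases Nat.lt_or_ge n 3 with h3 | h3
  · have key : ∀ (m : ℕ) (P : List ℤ) (c a b d e f : ℕ),
        Pool.Agent.X47.QF.chk P ([3, 7] ++ (Pool.Agent.X47.QF.rg a ++ Pool.Agent.X47.QF.rg b))
          ([1, c] ++ (Pool.Agent.X47.QF.rg d ++ (Pool.Agent.X47.QF.rg e ++
            Pool.Agent.X47.QF.rg f))) = true →
        NonnegPoly ((1 - X ^ 3) * (1 - X ^ 7) * (qfac a * qfac b))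
          ((1 - X) * (1 - X ^ c) * (qfac d * qfac e * qfac f)) := by
      intro m P c a b d e f h
      have h1 := Pool.Agent.X47.QF.of_chk P _ _ h
      simp only [List.map_append, List.prod_append, Pool.Agent.X47.QF.prod_rg, List.map_cons,
        List.map_nil, List.prod_cons, List.prod_nil, mul_one, pow_one] at h1
      rw [mul_assoc (qfac d)]
      exact h1
    interval_cases n
    · exact key 1 _ 13 15 2 10 4 3 Pool.Agent.X47.QF.b_1
    · exact key 2 _ 23 30 4 20 8 6 Pool.Agent.X47.QF.b_2
  · exact Pool.Agent.X47.QF.B1' n h3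

end Pool.Agent.Results.MP_e3fe77_co.BothPositive
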